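import Pool.Agent.Q119.Real.Tensor

set_option autoImplicit false

/-!
An abelian group whose endomorphism ring is centrally essential and satisfies no polynomial
identity.
-/

namespace Pool.Agent.Results.MP_0be8ec_al.NoIdentity

open Pool.Agent.Q119.Real

/-- Every nonzero `a` has central `x, y` with `a x = y` and `y` nonzero. -/
def CentrallyEssential (R : Type) [Ring R] : Prop :=
  ∀ a : R, a ≠ 0 → ∃ x ∈ Subring.center R, ∃ y ∈ Subring.center R, a * x = y ∧ y ≠ 0

/-- The value of a polynomial in `n` noncommuting variables with integer coefficients; the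
polynomial is given by its coefficients, indexed by the words in the variables. -/
def eval {R : Type} [Ring R] {n : ℕ} (f : List (Fin n) →₀ ℤ) (r : Fin n → R) : R :=
  f.sum fun w c => c • (w.map r).prod

/-- The ring satisfies a polynomial identity in which one of the monomials of maximal degree has
coefficient one. -/
def IsPI (R : Type) [Ring R] : Prop :=
  ∃ (n : ℕ) (f : List (Fin n) →₀ ℤ) (w : List (Fin n)), f w = 1 ∧
    (∀ v, f v ≠ 0 → v.length ≤ w.length) ∧ ∀ r : Fin n → R, eval f r = 0

/-- The data. -/
noncomputable def D : Data Tensor.T := data Tensor.gen (fun i => Or.inl (Tensor.gen_sq i))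

theorem good : Good (Set.range Tensor.gen) D :=
  good_data Tensor.gen (fun i => Or.inl (Tensor.gen_sq i))

/-- The group. -/
noncomputable abbrev A : AddSubgroup Tensor.E := Grp D

/-- The endomorphism ring. -/
noncomputable def equiv : Tensor.T ≃+* AddMonoid.End A := endEquiv Tensor.reduced_T good rfl

theorem essential_T : CentrallyEssential Tensor.T := by
  intro a ha
  have ha' : (a : Tensor.E) ≠ 0 := fun h => ha (Subtype.ext h)
  obtain ⟨c, hc, hcc, hac, hacc⟩ := Tensor.essential a a.2 ha'
  refine ⟨⟨c, hc⟩, ?_, a * ⟨c, hc⟩, ?_, rfl, ?_⟩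
  · rw [Subring.mem_center_iff]
    intro d
    exact Subtype.ext (hcc d d.2)
  · rw [Subring.mem_center_iff]
    intro d
    exact Subtype.ext (hacc d d.2)
  · intro h
    exact hac (congrArg Subtype.val h)

theorem essential_of_equiv {R S : Type} [Ring R] [Ring S] (e : R ≃+* S)
    (h : CentrallyEssential R) : CentrallyEssential S := by
  have hc : ∀ r ∈ Subring.center R, e r ∈ Subring.center S := by
    intro r hr
    rw [Subring.mem_center_iff] at hr ⊢
    intro s
    obtain ⟨t, rfl⟩ := e.surjective s
    rw [← map_mul, ← map_mul, hr]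
  intro a ha
  obtain ⟨c, hcc, d, hd, hcd, hd0⟩ := h (e.symm a) (by simpa using ha)
  refine ⟨e c, hc c hcc, e d, hc d hd, ?_, by simpa using hd0⟩
  rw [← hcd, map_mul, e.apply_symm_apply]

theorem no_identity {n : ℕ} (f : List (Fin n) →₀ ℤ) (hf : f ≠ 0) :
    ∃ r : Fin n → AddMonoid.End A, eval f r ≠ 0 := by
  obtain ⟨w, hw⟩ : ∃ w, f w ≠ 0 := by
    by_contra h
    push Not at h
    exact hf (Finsupp.ext h)
  obtain ⟨r, hr⟩ := Tensor.no_identity f w hw
  refine ⟨fun i => equiv (r i), fun h => hr ?_⟩
  apply equiv.injective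
  rw [map_zero, ← h, eval, Finsupp.sum, Finsupp.sum, map_sum]
  refine Finset.sum_congr rfl fun v _ => ?_
  rw [map_zsmul, map_list_prod, List.map_map]
  rfl

/-- There is an abelian group whose endomorphism ring is centrally essential and is not a ring with
polynomial identity; in fact no nonzero polynomial vanishes on it. -/
theorem result : ∃ (A : Type) (_ : AddCommGroup A),
    CentrallyEssential (AddMonoid.End A) ∧ ¬ IsPI (AddMonoid.End A) ∧
    ∀ (n : ℕ) (f : List (Fin n) →₀ ℤ), f ≠ 0 → ∃ r : Fin n → AddMonoid.End A, eval f r ≠ 0 := by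
  refine ⟨A, inferInstance, essential_of_equiv equiv essential_T, ?_, fun n f => no_identity f⟩
  rintro ⟨n, f, w, hw, _, h⟩
  obtain ⟨r, hr⟩ := no_identity f (by rintro rfl; simp at hw)
  exact hr (h r)

end Pool.Agent.Results.MP_0be8ec_al.NoIdentity
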